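import Pool.Agent.Helper82.IW.Goals

/-!
Packet TRA of project IW (MP_f7b570_an): transfer from the torus to the plane by scaling.
-/

open Complex MeasureTheory Set Filter Topology
open scoped ContDiff ComplexConjugate

namespace Pool.Agent.Helper10.IW

open Pool.Agent.Helper28.BA (dz db psi)
open Pool.Agent.Helper82.IW

theorem dir_hasFDerivAt {U : ℂ → ℂ} (hU : ContDiff ℝ ∞ U) (v z : ℂ) :
    HasFDerivAt (fun w => fderiv ℝ U w v)
      ((ContinuousLinearMap.apply ℝ ℂ v).comp (fderiv ℝ (fderiv ℝ U) z)) z := by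
  have h1 : Differentiable ℝ (fderiv ℝ U) :=
    (hU.fderiv_right (m := ∞) (by simp)).differentiable (by simp)
  exact (ContinuousLinearMap.apply ℝ ℂ v).hasFDerivAt.comp z (h1 z).hasFDerivAt

theorem contDiff_dir {U : ℂ → ℂ} (hU : ContDiff ℝ ∞ U) (v : ℂ) :
    ContDiff ℝ ∞ (fun w => fderiv ℝ U w v) :=
  (hU.fderiv_right (m := ∞) (by simp)).clm_apply contDiff_const

theorem contDiff_dx {U : ℂ → ℂ} (hU : ContDiff ℝ ∞ U) : ContDiff ℝ ∞ (dx U) := contDiff_dir hU 1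

theorem contDiff_dy {U : ℂ → ℂ} (hU : ContDiff ℝ ∞ U) : ContDiff ℝ ∞ (dy U) := contDiff_dir hU I

theorem dx_dy_comm {U : ℂ → ℂ} (hU : ContDiff ℝ ∞ U) (z : ℂ) : dx (dy U) z = dy (dx U) z := by
  have h1 : dx (dy U) z = fderiv ℝ (fderiv ℝ U) z 1 I := by
    show fderiv ℝ (fun w => fderiv ℝ U w I) z 1 = _
    rw [(dir_hasFDerivAt hU I z).fderiv]
    rfl
  have h2 : dy (dx U) z = fderiv ℝ (fderiv ℝ U) z I 1 := by
    show fderiv ℝ (fun w => fderiv ℝ U w 1) z I = _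
    rw [(dir_hasFDerivAt hU 1 z).fderiv]
    rfl
  rw [h1, h2]
  have h3 : IsSymmSndFDerivAt ℝ U z := by
    apply (hU.contDiffAt (x := z)).isSymmSndFDerivAt
    simp only [minSmoothness_of_isRCLikeNormedField]
    exact WithTop.coe_le_coe.2 (le_top (a := (2 : ℕ∞)))
  exact h3 1 I

theorem two_db (U : ℂ → ℂ) : (fun w => 2 * db U w) = fun w => dx U w + I * dy U w := by
  funext w
  simp only [db, dx, dy]
  ring

theorem fd_two_db {U : ℂ → ℂ} (hU : ContDiff ℝ ∞ U) (z v : ℂ) :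
    fderiv ℝ (fun w => 2 * db U w) z v = fderiv ℝ (dx U) z v + I * fderiv ℝ (dy U) z v := by
  rw [two_db]
  have h1 : DifferentiableAt ℝ (dx U) z := (contDiff_dx hU).differentiable (by simp) z
  have h2 : DifferentiableAt ℝ (dy U) z := (contDiff_dy hU).differentiable (by simp) z
  have h3 : HasFDerivAt (fun w => dx U w + I * dy U w)
      (fderiv ℝ (dx U) z + I • fderiv ℝ (dy U) z) z :=
    h1.hasFDerivAt.add (h2.hasFDerivAt.const_mul I)
  rw [h3.fderiv]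
  simp

theorem dz_two_db {U : ℂ → ℂ} (hU : ContDiff ℝ ∞ U) (z : ℂ) :
    dz (fun w => 2 * db U w) z = hl U z := by
  have h1 := dx_dy_comm hU z
  unfold dz hl
  rw [fd_two_db hU, fd_two_db hU]
  have e1 : fderiv ℝ (dx U) z 1 = dx (dx U) z := rfl
  have e2 : fderiv ℝ (dy U) z 1 = dx (dy U) z := rfl
  have e3 : fderiv ℝ (dx U) z I = dy (dx U) z := rfl
  have e4 : fderiv ℝ (dy U) z I = dy (dy U) z := rfl
  rw [e1, e2, e3, e4, h1]
  linear_combination (-(1 / 2 : ℂ) * dy (dy U) z) * I_sq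

theorem db_two_db {U : ℂ → ℂ} (hU : ContDiff ℝ ∞ U) (z : ℂ) :
    db (fun w => 2 * db U w) z = zb U z := by
  have h1 := dx_dy_comm hU z
  unfold db zb
  have h2 : (fun w => 2 * ((1 / 2 : ℂ) * (fderiv ℝ U w 1 + I * fderiv ℝ U w I))) =
      fun w => 2 * db U w := rfl
  rw [h2, fd_two_db hU, fd_two_db hU]
  have e1 : fderiv ℝ (dx U) z 1 = dx (dx U) z := rfl
  have e2 : fderiv ℝ (dy U) z 1 = dx (dy U) z := rfl
  have e3 : fderiv ℝ (dx U) z I = dy (dx U) z := rfl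
  have e4 : fderiv ℝ (dy U) z I = dy (dy U) z := rfl
  rw [e1, e2, e3, e4, h1]
  linear_combination ((1 / 2 : ℂ) * dy (dy U) z) * I_sq

/-! ### locality -/

theorem dir_congr {f g : ℂ → ℂ} {z : ℂ} (h : f =ᶠ[𝓝 z] g) (v : ℂ) :
    (fun w => fderiv ℝ f w v) =ᶠ[𝓝 z] fun w => fderiv ℝ g w v := by
  have := h.fderiv (𝕜 := ℝ)
  filter_upwards [this] with w hw
  rw [hw]

theorem dx_congr {f g : ℂ → ℂ} {z : ℂ} (h : f =ᶠ[𝓝 z] g) : dx f =ᶠ[𝓝 z] dx g := dir_congr h 1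

theorem dy_congr {f g : ℂ → ℂ} {z : ℂ} (h : f =ᶠ[𝓝 z] g) : dy f =ᶠ[𝓝 z] dy g := dir_congr h I

theorem hl_congr {f g : ℂ → ℂ} {z : ℂ} (h : f =ᶠ[𝓝 z] g) : hl f z = hl g z := by
  unfold hl
  rw [(dx_congr (dx_congr h)).eq_of_nhds, (dy_congr (dy_congr h)).eq_of_nhds]

theorem zb_congr {f g : ℂ → ℂ} {z : ℂ} (h : f =ᶠ[𝓝 z] g) : zb f z = zb g z := by
  unfold zb
  rw [(dx_congr (dx_congr h)).eq_of_nhds, (dy_congr (dy_congr h)).eq_of_nhds,
    (dx_congr (dy_congr h)).eq_of_nhds]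

theorem dx_zero (z : ℂ) : dx (fun _ : ℂ => (0 : ℂ)) z = 0 := by
  simp [dx]

theorem dy_zero (z : ℂ) : dy (fun _ : ℂ => (0 : ℂ)) z = 0 := by
  simp [dy]

theorem hl_zero (z : ℂ) : hl (fun _ : ℂ => (0 : ℂ)) z = 0 := by
  have h1 : dx (fun _ : ℂ => (0 : ℂ)) = fun _ => 0 := funext dx_zero
  have h2 : dy (fun _ : ℂ => (0 : ℂ)) = fun _ => 0 := funext dy_zero
  simp only [hl, h1, h2]
  simp

theorem zb_zero (z : ℂ) : zb (fun _ : ℂ => (0 : ℂ)) z = 0 := by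
  have h1 : dx (fun _ : ℂ => (0 : ℂ)) = fun _ => 0 := funext dx_zero
  have h2 : dy (fun _ : ℂ => (0 : ℂ)) = fun _ => 0 := funext dy_zero
  simp only [zb, h1, h2]
  simp

/-! ### scaling -/

theorem dir_scale {G : ℂ → ℂ} (hG : Differentiable ℝ G) (a : ℂ) (l : ℝ) (w0 v z : ℂ) :
    fderiv ℝ (fun z => a * G (l • (z - w0))) z v = a * l * fderiv ℝ G (l • (z - w0)) v := by
  have h1 : HasFDerivAt (fun z : ℂ => l • (z - w0)) (l • ContinuousLinearMap.id ℝ ℂ) z :=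
    ((hasFDerivAt_id z).sub_const w0).const_smul l
  have h2 := ((hG (l • (z - w0))).hasFDerivAt.comp z h1).const_mul a
  have h3 : (fun z => a * G (l • (z - w0))) = fun z => a * (G ∘ fun z => l • (z - w0)) z := rfl
  rw [h3, h2.fderiv]
  simp
  ring

theorem dx_scale {G : ℂ → ℂ} (hG : Differentiable ℝ G) (a : ℂ) (l : ℝ) (w0 : ℂ) :
    dx (fun z => a * G (l • (z - w0))) = fun z => (a * l) * dx G (l • (z - w0)) := by
  funext z
  exact dir_scale hG a l w0 1 z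

theorem dy_scale {G : ℂ → ℂ} (hG : Differentiable ℝ G) (a : ℂ) (l : ℝ) (w0 : ℂ) :
    dy (fun z => a * G (l • (z - w0))) = fun z => (a * l) * dy G (l • (z - w0)) := by
  funext z
  exact dir_scale hG a l w0 I z

theorem hl_scale {U : ℂ → ℂ} (hU : ContDiff ℝ ∞ U) {l : ℝ} (hl0 : l ≠ 0) (w0 z : ℂ) :
    hl (fun z => ((l : ℂ) ^ 2)⁻¹ * U (l • (z - w0))) z = hl U (l • (z - w0)) := by
  have h0 : Differentiable ℝ U := hU.differentiable (by simp)
  have h1 : Differentiable ℝ (dx U) := (contDiff_dx hU).differentiable (by simp)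
  have h2 : Differentiable ℝ (dy U) := (contDiff_dy hU).differentiable (by simp)
  have hc : ((l : ℂ) ^ 2)⁻¹ * l * l = 1 := by
    have : (l : ℂ) ≠ 0 := by exact_mod_cast hl0
    field_simp
  unfold hl
  rw [dx_scale h0, dy_scale h0, dx_scale h1, dy_scale h2]
  simp only [hc, one_mul]

theorem zb_scale {U : ℂ → ℂ} (hU : ContDiff ℝ ∞ U) {l : ℝ} (hl0 : l ≠ 0) (w0 z : ℂ) :
    zb (fun z => ((l : ℂ) ^ 2)⁻¹ * U (l • (z - w0))) z = zb U (l • (z - w0)) := by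
  have h0 : Differentiable ℝ U := hU.differentiable (by simp)
  have h1 : Differentiable ℝ (dx U) := (contDiff_dx hU).differentiable (by simp)
  have h2 : Differentiable ℝ (dy U) := (contDiff_dy hU).differentiable (by simp)
  have hc : ((l : ℂ) ^ 2)⁻¹ * l * l = 1 := by
    have : (l : ℂ) ≠ 0 := by exact_mod_cast hl0
    field_simp
  unfold zb
  rw [dx_scale h0, dy_scale h0, dx_scale h1, dy_scale h2, dx_scale h2]
  simp only [hc, one_mul]

/-! ### the square -/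

theorem Q_ae : (Q : Set ℂ) =ᵐ[volume] (Ioo 0 1 ×ℂ Ioo 0 1 : Set ℂ) := by
  have h : (Icc (0 : ℝ) 1 ×ˢ Icc (0 : ℝ) 1 : Set (ℝ × ℝ)) =ᵐ[volume.prod volume]
      (Ioo (0 : ℝ) 1 ×ˢ Ioo (0 : ℝ) 1 : Set (ℝ × ℝ)) :=
    Measure.set_prod_ae_eq Ioo_ae_eq_Icc.symm Ioo_ae_eq_Icc.symm
  exact Complex.volume_preserving_equiv_real_prod.quasiMeasurePreserving.preimage_ae_eq h

theorem psi_zero : psi 0 0 = 0 := by
  simp [psi]

theorem TRA : S_TRA := by
  intro hM hP U hU hUc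
  -- the radius
  obtain ⟨r, hr⟩ := hUc.isCompact.isBounded.subset_closedBall 0
  set l : ℝ := 4 * (|r| + 1) with hldef
  have hlpos : 0 < l := by positivity
  have hl0 : l ≠ 0 := hlpos.ne'
  set w0 : ℂ := ⟨1 / 2, 1 / 2⟩ with hw0
  set U₁ : ℂ → ℂ := fun z => ((l : ℂ) ^ 2)⁻¹ * U (l • (z - w0)) with hU₁
  have hsm : ContDiff ℝ ∞ U₁ := by
    apply contDiff_const.mul
    apply hU.comp
    exact (contDiff_id.sub contDiff_const).const_smul l
  have hsup : tsupport U₁ ⊆ Ioo 0 1 ×ℂ Ioo 0 1 := by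
    have h1 : tsupport U₁ ⊆ Metric.closedBall w0 (1 / 4) := by
      apply closure_minimal _ Metric.isClosed_closedBall
      intro z hz
      have hz' : U (l • (z - w0)) ≠ 0 := by
        intro h
        apply hz
        simp only [hU₁, h, mul_zero]
      have h2 : l • (z - w0) ∈ Metric.closedBall (0 : ℂ) r := hr (subset_tsupport U hz')
      rw [Metric.mem_closedBall, dist_zero_right, norm_smul, Real.norm_of_nonneg hlpos.le] at h2
      rw [Metric.mem_closedBall, dist_eq_norm]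
      have h3 : r ≤ |r| := le_abs_self r
      have h4 : 0 ≤ ‖z - w0‖ := norm_nonneg _
      have h5 : 0 ≤ |r| := abs_nonneg r
      by_contra hcon
      push Not at hcon
      have : l * (1 / 4) < l * ‖z - w0‖ := by
        exact mul_lt_mul_of_pos_left hcon hlpos
      have h6 : l * (1 / 4) = |r| + 1 := by rw [hldef]; ring
      linarith
    intro z hz
    have h2 := h1 hz
    rw [Metric.mem_closedBall, dist_eq_norm] at h2
    have h3 : |(z - w0).re| ≤ 1 / 4 := (Complex.abs_re_le_norm _).trans h2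
    have h4 : |(z - w0).im| ≤ 1 / 4 := (Complex.abs_im_le_norm _).trans h2
    simp only [hw0, Complex.sub_re, Complex.sub_im] at h3 h4
    rw [abs_le] at h3 h4
    rw [Complex.mem_reProdIm]
    exact ⟨⟨by linarith [h3.1], by linarith [h3.2]⟩, ⟨by linarith [h4.1], by linarith [h4.2]⟩⟩
  obtain ⟨V, hV, hVU⟩ := hP U₁ hsm hsup
  have hmain := hM V hV
  have e1 : ∫ z in Q, psi ‖hl V z‖ ‖zb V z‖ =
      ∫ z in (Ioo 0 1 ×ℂ Ioo 0 1 : Set ℂ), psi ‖hl V z‖ ‖zb V z‖ :=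
    setIntegral_congr_set Q_ae
  have hmeas : MeasurableSet (Ioo 0 1 ×ℂ Ioo 0 1 : Set ℂ) :=
    (isOpen_Ioo.reProdIm isOpen_Ioo).measurableSet
  have e2 : ∫ z in (Ioo 0 1 ×ℂ Ioo 0 1 : Set ℂ), psi ‖hl V z‖ ‖zb V z‖ =
      ∫ z in (Ioo 0 1 ×ℂ Ioo 0 1 : Set ℂ), psi ‖hl U₁ z‖ ‖zb U₁ z‖ := by
    apply setIntegral_congr_fun hmeas
    intro z hz
    have h1 := hVU z hz
    simp only
    rw [hl_congr h1, zb_congr h1]
  have e3 : ∫ z in (Ioo 0 1 ×ℂ Ioo 0 1 : Set ℂ), psi ‖hl U₁ z‖ ‖zb U₁ z‖ =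
      ∫ z, psi ‖hl U₁ z‖ ‖zb U₁ z‖ := by
    apply setIntegral_eq_integral_of_forall_compl_eq_zero
    intro z hz
    have h1 : z ∉ tsupport U₁ := fun h => hz (hsup h)
    have h2 : U₁ =ᶠ[𝓝 z] fun _ => 0 := notMem_tsupport_iff_eventuallyEq.mp h1
    rw [hl_congr h2, zb_congr h2, hl_zero, zb_zero, norm_zero, psi_zero]
  have e4 : (fun z => psi ‖hl U₁ z‖ ‖zb U₁ z‖) =
      fun z => psi ‖hl U (l • (z - w0))‖ ‖zb U (l • (z - w0))‖ := by
    funext z
    rw [hU₁, hl_scale hU hl0, zb_scale hU hl0]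
  have e5 : ∫ z, psi ‖hl U (l • (z - w0))‖ ‖zb U (l • (z - w0))‖ =
      ∫ z, psi ‖hl U (l • z)‖ ‖zb U (l • z)‖ :=
    integral_sub_right_eq_self (fun z => psi ‖hl U (l • z)‖ ‖zb U (l • z)‖) w0
  have e6 : ∫ z, psi ‖hl U (l • z)‖ ‖zb U (l • z)‖ =
      |(l ^ Module.finrank ℝ ℂ)⁻¹| • ∫ z, psi ‖hl U z‖ ‖zb U z‖ :=
    Measure.integral_comp_smul volume (fun z => psi ‖hl U z‖ ‖zb U z‖) l
  have e7 : (fun z => psi ‖dz (fun w => 2 * db U w) z‖ ‖db (fun w => 2 * db U w) z‖) =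
      fun z => psi ‖hl U z‖ ‖zb U z‖ := by
    funext z
    rw [dz_two_db hU, db_two_db hU]
  rw [e7]
  rw [e1, e2, e3, e4, e5, e6, smul_eq_mul] at hmain
  have hc : 0 < |(l ^ Module.finrank ℝ ℂ)⁻¹| := by positivity
  exact nonneg_of_mul_nonneg_right hmain hc

end Pool.Agent.Helper10.IW
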